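import Mathlib
import Pool.Agent.H24.Ctrs

set_option autoImplicit false

namespace Pool.Agent.Results.MP_a6fba8_lc.NotModular

open Pool.Agent.H24.Ctrs

theorem result : ∃ (L L' : FirstOrder.Language.{0, 0}) (R : Set (Rule L)) (S : Set (Rule L')),
    R.Finite ∧ S.Finite ∧ Valid R ∧ Valid S ∧ UN R ∧ UN S ∧ ¬ UN (union R S) :=
  final

end Pool.Agent.Results.MP_a6fba8_lc.NotModular
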